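import Pool.Agent.NH58.NEb

/-!
Every minimal non-Engel variety of associative rings is a Cross variety.

Outline. For a prime `p` and `q = p ^ k` let `W(p, q)` be the variety of the rings with `p x = 0`
in which the ideal generated by all `x ^ q - x` and all commutators has square zero. Its
subdirectly irreducible members have at most `q ^ 3` elements, so each of its subvarieties is a
Cross variety. If `E ∩ W(p, q)` is Engel for all `p`, `q`, then `E` is Engel: the Nullstellensatz
over the integers bounds the Engel length of the rings of `E` whose commutator ideal has square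
zero. Hence, a square-zero ideal `K` of a ring `R` of `E` satisfies `[K, y, ..., y] = 0`, a
torsion-free ring of `E` is Engel (pass to dual numbers), and a prime ring of `E` of
characteristic `p` is commutative (it satisfies a polynomial identity and is reduced to finite
rings). A ring of `E` maximal with respect to having elements `x`, `y` with all `[x, y, ..., y]`
non-zero is prime, a contradiction. So a minimal non-Engel variety lies in some `W(p, q)`.
-/

set_option autoImplicit false

namespace Pool.Agent.Results.MP_a5aec7_al.MinimalNonEngelCross

open Pool.Agent.H854R3.NE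

/-- Every minimal non-Engel variety of associative rings is a Cross variety; moreover it satisfies
`p x = 0` for some prime `p` and, for some power `q` of `p`, the products `a b`, `a c b` vanish
whenever each of `a`, `b` is a commutator or of the form `x ^ q - x`. -/
theorem result (E : Set (RTerm × RTerm)) (h : MinimalNonEngel E) :
    IsCross E ∧ ∃ p k : ℕ, p.Prime ∧ 1 ≤ k ∧
      ∀ (R : Type) [NonUnitalRing R], Models E R → IsW p k R := by
  refine ⟨Pool.Agent.NH58.NE.cross_of_minimal_nonEngel E h, ?_⟩
  obtain ⟨hne, hmin⟩ := h
  have h1 : ¬ ∀ p k : ℕ, p.Prime → 1 ≤ k → IsEngel (E ∪ WId p (p ^ k)) :=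
    fun h => hne (Pool.Agent.NH58.NE.engel_of_all h)
  push Not at h1
  obtain ⟨p, k, hp, hk, hW⟩ := h1
  have h2 : SubvarietyOf E (E ∪ WId p (p ^ k)) := by
    by_contra hcon
    exact hW (hmin _ (fun R _ hR e he => hR e (Or.inl he)) hcon)
  exact ⟨p, k, hp, hk, fun R _ hR => models_WId.1 (fun e he => h2 R hR e (Or.inr he))⟩

end Pool.Agent.Results.MP_a5aec7_al.MinimalNonEngelCross
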